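import Pool.Agent.W2helper22.CU.Stmts

/-!
# Piece GOOD: a point whose fibres all have about the average number of projections
-/

set_option autoImplicit false

namespace Pool.Agent.W2helper66.CU

open Pool.Agent.W2helper22.CU

section count

variable {α β : Type} [DecidableEq β]

/-- if all classes of `G` have at most `c` elements then `|G| ≤ c * (number of classes)` -/
theorem card_le_of_class (G : Finset α) (r : α → β) (c : ℝ)
    (h : ∀ y ∈ G, ((G.filter (fun z => r z = r y)).card : ℝ) ≤ c) :
    (G.card : ℝ) ≤ (G.image r).card * c := by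
  have h1 : G.card = ∑ v ∈ G.image r, (G.filter (fun z => r z = v)).card :=
    Finset.card_eq_sum_card_image r G
  rw [h1]
  push_cast
  calc ∑ v ∈ G.image r, ((G.filter (fun z => r z = v)).card : ℝ) ≤ ∑ v ∈ G.image r, c := by
        apply Finset.sum_le_sum
        intro v hv
        obtain ⟨y, hy, rfl⟩ := Finset.mem_image.1 hv
        exact h y hy
    _ = (G.image r).card * c := by simp

/-- if all classes of `G` have at least `c` elements then `c * (number of classes) ≤ |G|` -/
theorem class_le_card (G : Finset α) (r : α → β) (c : ℝ)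
    (h : ∀ y ∈ G, c ≤ ((G.filter (fun z => r z = r y)).card : ℝ)) :
    (G.image r).card * c ≤ (G.card : ℝ) := by
  have h1 : G.card = ∑ v ∈ G.image r, (G.filter (fun z => r z = v)).card :=
    Finset.card_eq_sum_card_image r G
  rw [h1]
  push_cast
  calc (G.image r).card * c = ∑ v ∈ G.image r, c := by simp
    _ ≤ ∑ v ∈ G.image r, ((G.filter (fun z => r z = v)).card : ℝ) := by
        apply Finset.sum_le_sum
        intro v hv
        obtain ⟨y, hy, rfl⟩ := Finset.mem_image.1 hv
        exact h y hy

/-- the set of the points whose class is more than half in `B` has at most `2 |B|` elements -/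
theorem half_class (S B : Finset α) (r : α → β) :
    (S.filter (fun x => (S.filter (fun z => r z = r x)).card <
      2 * (B.filter (fun z => r z = r x)).card)).card ≤ 2 * B.card := by
  set D := S.filter (fun x => (S.filter (fun z => r z = r x)).card <
      2 * (B.filter (fun z => r z = r x)).card) with hD
  have h1 : D.card = ∑ v ∈ D.image r, (D.filter (fun z => r z = v)).card :=
    Finset.card_eq_sum_card_image r D
  have h2 : ∑ v ∈ D.image r, (B.filter (fun z => r z = v)).card ≤ B.card := by
    have h3 : ∑ v ∈ D.image r, (B.filter (fun z => r z = v)).card =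
        (B.filter (fun z => r z ∈ D.image r)).card := by
      rw [Finset.card_eq_sum_card_fiberwise (f := r) (t := D.image r)
        (s := B.filter (fun z => r z ∈ D.image r))]
      · apply Finset.sum_congr rfl
        intro v hv
        congr 1
        ext z
        simp only [Finset.mem_filter]
        constructor
        · rintro ⟨hz, hzv⟩
          exact ⟨⟨hz, hzv ▸ hv⟩, hzv⟩
        · rintro ⟨⟨hz, _⟩, hzv⟩
          exact ⟨hz, hzv⟩
      · intro z hz
        have := (Finset.mem_filter.1 (Finset.mem_coe.1 hz)).2
        exact Finset.mem_coe.2 this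
    rw [h3]
    exact Finset.card_le_card (Finset.filter_subset _ _)
  rw [h1]
  calc ∑ v ∈ D.image r, (D.filter (fun z => r z = v)).card
      ≤ ∑ v ∈ D.image r, 2 * (B.filter (fun z => r z = v)).card := by
        apply Finset.sum_le_sum
        intro v hv
        obtain ⟨y, hy, rfl⟩ := Finset.mem_image.1 hv
        have hy2 := (Finset.mem_filter.1 hy).2
        refine le_trans (Finset.card_le_card ?_) hy2.le
        exact Finset.filter_subset_filter _ (Finset.filter_subset _ _)
    _ = 2 * ∑ v ∈ D.image r, (B.filter (fun z => r z = v)).card := by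
        rw [Finset.mul_sum]
    _ ≤ 2 * B.card := Nat.mul_le_mul_left _ h2

end count

section fib

variable {K N : ℕ}

/-- restriction -/
def rs (J : Finset (Fin K)) (x : Fin K → Fin N) : J → Fin N := fun i => x i

theorem rs_eq_iff (J : Finset (Fin K)) (x y : Fin K → Fin N) :
    rs J y = rs J x ↔ ∀ i ∈ J, y i = x i := by
  constructor
  · intro h i hi
    exact congrFun h ⟨i, hi⟩
  · intro h
    funext i
    exact h i i.2

theorem fib_eq (S : Finset (Fin K → Fin N)) (J : Finset (Fin K)) (x : Fin K → Fin N) :
    fib S J x = S.filter (fun y => rs J y = rs J x) := by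
  unfold fib
  apply Finset.filter_congr
  intro y _
  rw [rs_eq_iff]

theorem pc_eq (S : Finset (Fin K → Fin N)) (J : Finset (Fin K)) :
    pc S J = (S.image (rs J)).card := rfl

theorem pc_pos (S : Finset (Fin K → Fin N)) (hS : S.Nonempty) (J : Finset (Fin K)) :
    0 < pc S J := by
  rw [pc_eq]
  exact Finset.card_pos.2 (hS.image _)

end fib

theorem p_good : P_GOOD := by
  classical
  intro K N S hS M hM β hβ h1 h2
  -- the bad sets
  let bad : Finset (Fin K) → Finset (Fin K → Fin N) := fun J =>
    S.filter (fun x => β * S.card ≤ pc S J * (fib S J x).card)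
  let D : Finset (Fin K) → Finset (Fin K) → Finset (Fin K → Fin N) := fun J J' =>
    S.filter (fun x => (S.filter (fun z => rs J z = rs J x)).card <
      2 * ((bad J').filter (fun z => rs J z = rs J x)).card)
  have hDc : ∀ J J', (D J J').card ≤ 2 * (bad J').card := fun J J' => half_class S (bad J') (rs J)
  have hbad : ∀ J, 4 ^ (K + 1) * (bad J).card ≤ S.card := h2
  have hScard : 0 < S.card := Finset.card_pos.2 hS
  -- a point outside
  obtain ⟨x, hxS, hx1, hx2⟩ : ∃ x ∈ S, (∀ J, x ∉ bad J) ∧ ∀ J J', x ∉ D J J' := by
    by_contra hcon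
    push Not at hcon
    have hsub : S ⊆ (Finset.univ.biUnion bad) ∪
        (Finset.univ.biUnion (fun p : Finset (Fin K) × Finset (Fin K) => D p.1 p.2)) := by
      intro x hx
      rw [Finset.mem_union]
      by_cases h : ∀ J, x ∉ bad J
      · obtain ⟨J, J', hJ⟩ := hcon x hx h
        right
        rw [Finset.mem_biUnion]
        exact ⟨(J, J'), Finset.mem_univ _, hJ⟩
      · push Not at h
        obtain ⟨J, hJ⟩ := h
        left
        rw [Finset.mem_biUnion]
        exact ⟨J, Finset.mem_univ _, hJ⟩
    have hc := Finset.card_le_card hsub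
    have hc2 := Finset.card_union_le (Finset.univ.biUnion bad)
      (Finset.univ.biUnion (fun p : Finset (Fin K) × Finset (Fin K) => D p.1 p.2))
    have hc3 : (Finset.univ.biUnion bad).card ≤ ∑ J : Finset (Fin K), (bad J).card :=
      Finset.card_biUnion_le
    have hc4 : (Finset.univ.biUnion (fun p : Finset (Fin K) × Finset (Fin K) => D p.1 p.2)).card ≤
        ∑ p : Finset (Fin K) × Finset (Fin K), (D p.1 p.2).card := Finset.card_biUnion_le
    have hc5 : 4 ^ (K + 1) * ∑ J : Finset (Fin K), (bad J).card ≤ 2 ^ K * S.card := by
      rw [Finset.mul_sum]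
      calc ∑ J : Finset (Fin K), 4 ^ (K + 1) * (bad J).card ≤ ∑ J : Finset (Fin K), S.card :=
            Finset.sum_le_sum (fun J _ => hbad J)
        _ = 2 ^ K * S.card := by
            rw [Finset.sum_const, Finset.card_univ, Fintype.card_finset, Fintype.card_fin,
              smul_eq_mul]
    have hc6 : 4 ^ (K + 1) * ∑ p : Finset (Fin K) × Finset (Fin K), (D p.1 p.2).card ≤
        4 ^ K * (2 * S.card) := by
      rw [Finset.mul_sum]
      calc ∑ p : Finset (Fin K) × Finset (Fin K), 4 ^ (K + 1) * (D p.1 p.2).card
          ≤ ∑ p : Finset (Fin K) × Finset (Fin K), 2 * S.card := by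
            apply Finset.sum_le_sum
            intro p _
            calc 4 ^ (K + 1) * (D p.1 p.2).card ≤ 4 ^ (K + 1) * (2 * (bad p.2).card) :=
                  Nat.mul_le_mul_left _ (hDc _ _)
              _ = 2 * (4 ^ (K + 1) * (bad p.2).card) := by ring
              _ ≤ 2 * S.card := Nat.mul_le_mul_left _ (hbad _)
        _ = 4 ^ K * (2 * S.card) := by
            rw [Finset.sum_const, Finset.card_univ, Fintype.card_prod, Fintype.card_finset,
              Fintype.card_fin, smul_eq_mul]
            congr 1
            rw [← mul_pow]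
            norm_num
    have h4 : (2 : ℕ) ^ K ≤ 4 ^ K := Nat.pow_le_pow_left (by norm_num) K
    have h5 : 4 ^ (K + 1) * S.card ≤ 4 ^ K * S.card + 4 ^ K * (2 * S.card) := by
      calc 4 ^ (K + 1) * S.card ≤ 4 ^ (K + 1) * (∑ J : Finset (Fin K), (bad J).card +
            ∑ p : Finset (Fin K) × Finset (Fin K), (D p.1 p.2).card) := by
            apply Nat.mul_le_mul_left
            omega
        _ ≤ 2 ^ K * S.card + 4 ^ K * (2 * S.card) := by
            rw [mul_add]
            omega
        _ ≤ 4 ^ K * S.card + 4 ^ K * (2 * S.card) := by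
            have := Nat.mul_le_mul_right S.card h4
            omega
    have h6 : 4 ^ K * (4 * S.card) ≤ 4 ^ K * (3 * S.card) := by
      calc 4 ^ K * (4 * S.card) = 4 ^ (K + 1) * S.card := by ring
        _ ≤ 4 ^ K * S.card + 4 ^ K * (2 * S.card) := h5
        _ = 4 ^ K * (3 * S.card) := by ring
    have h7 := Nat.le_of_mul_le_mul_left h6 (by positivity)
    omega
  refine ⟨x, hxS, ?_⟩
  intro J J' hJJ
  have hSR : (0 : ℝ) < S.card := by exact_mod_cast hScard
  have hMR : (1 : ℝ) ≤ M := by exact_mod_cast hM
  have hpJ : (0 : ℝ) < pc S J := by exact_mod_cast pc_pos S hS J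
  have hpJ' : (0 : ℝ) < pc S J' := by exact_mod_cast pc_pos S hS J'
  have hxJ : (pc S J : ℝ) * (fib S J x).card < β * S.card := by
    by_contra hcon
    push Not at hcon
    exact hx1 J (Finset.mem_filter.2 ⟨hxS, hcon⟩)
  have hlow : ∀ (J : Finset (Fin K)), ∀ y ∈ S,
      (S.card : ℝ) ≤ M * pc S J * (fib S J y).card := by
    intro J y hy
    exact_mod_cast h1 J y hy
  constructor
  · -- upper bound
    have hA := class_le_card (fib S J x) (rs J') ((S.card : ℝ) / (M * pc S J')) (by
      intro y hy
      have hyS : y ∈ S := (Finset.mem_filter.1 hy).1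
      have hyx : ∀ i ∈ J, y i = x i := (Finset.mem_filter.1 hy).2
      have heq : (fib S J x).filter (fun z => rs J' z = rs J' y) = fib S J' y := by
        rw [fib_eq S J' y]
        ext z
        simp only [fib, Finset.mem_filter, rs_eq_iff]
        constructor
        · rintro ⟨⟨hz, _⟩, hzy⟩
          exact ⟨hz, hzy⟩
        · rintro ⟨hz, hzy⟩
          exact ⟨⟨hz, fun i hi => (hzy i (hJJ hi)).trans (hyx i hi)⟩, hzy⟩
      rw [heq, div_le_iff₀ (by positivity)]
      calc (S.card : ℝ) ≤ M * pc S J' * (fib S J' y).card := hlow J' y hyS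
        _ = (fib S J' y).card * (M * pc S J') := by ring)
    rw [← pc_eq] at hA
    have hA2 : (pc (fib S J x) J' : ℝ) * S.card ≤ (fib S J x).card * (M * pc S J') := by
      have := hA
      rw [mul_div_assoc', div_le_iff₀ (by positivity)] at this
      exact this
    have hA3 : (pc (fib S J x) J' : ℝ) * pc S J * S.card ≤ β * M * pc S J' * S.card := by
      calc (pc (fib S J x) J' : ℝ) * pc S J * S.card
          = pc S J * (pc (fib S J x) J' * S.card) := by ring
        _ ≤ pc S J * ((fib S J x).card * (M * pc S J')) := by gcongr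
        _ = (pc S J * (fib S J x).card) * (M * pc S J') := by ring
        _ ≤ (β * S.card) * (M * pc S J') := by gcongr
        _ = β * M * pc S J' * S.card := by ring
    exact le_of_mul_le_mul_right hA3 hSR
  · -- lower bound
    set F := fib S J x with hF
    have hFr : F = S.filter (fun z => rs J z = rs J x) := fib_eq S J x
    have hhalf : 2 * ((bad J').filter (fun z => rs J z = rs J x)).card ≤ F.card := by
      by_contra hcon
      push Not at hcon
      rw [hFr] at hcon
      exact hx2 J J' (Finset.mem_filter.2 ⟨hxS, hcon⟩)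
    set G := F.filter (fun z => z ∉ bad J') with hG
    have hsplit : F.card ≤ G.card + ((bad J').filter (fun z => rs J z = rs J x)).card := by
      have hs : F ⊆ G ∪ ((bad J').filter (fun z => rs J z = rs J x)) := by
        intro z hz
        rw [Finset.mem_union]
        by_cases hb : z ∈ bad J'
        · right
          rw [hFr] at hz
          exact Finset.mem_filter.2 ⟨hb, (Finset.mem_filter.1 hz).2⟩
        · left
          exact Finset.mem_filter.2 ⟨hz, hb⟩
      exact (Finset.card_le_card hs).trans (Finset.card_union_le _ _)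
    have hG2 : F.card ≤ 2 * G.card := by omega
    have hB := card_le_of_class G (rs J') (β * S.card / pc S J') (by
      intro y hy
      have hyF : y ∈ F := (Finset.mem_filter.1 hy).1
      have hyb : y ∉ bad J' := (Finset.mem_filter.1 hy).2
      have hyS : y ∈ S := (Finset.mem_filter.1 hyF).1
      have hy2 : (pc S J' : ℝ) * (fib S J' y).card < β * S.card := by
        by_contra hcon
        push Not at hcon
        exact hyb (Finset.mem_filter.2 ⟨hyS, hcon⟩)
      have hsub : G.filter (fun z => rs J' z = rs J' y) ⊆ fib S J' y := by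
        rw [fib_eq]
        apply Finset.filter_subset_filter
        exact (Finset.filter_subset _ _).trans (Finset.filter_subset _ _)
      have hcard : ((G.filter (fun z => rs J' z = rs J' y)).card : ℝ) ≤ (fib S J' y).card := by
        exact_mod_cast Finset.card_le_card hsub
      rw [le_div_iff₀ hpJ']
      calc ((G.filter (fun z => rs J' z = rs J' y)).card : ℝ) * pc S J'
          ≤ (fib S J' y).card * pc S J' := by gcongr
        _ = pc S J' * (fib S J' y).card := by ring
        _ ≤ β * S.card := hy2.le)
    have himg : ((G.image (rs J')).card : ℝ) ≤ pc F J' := by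
      rw [pc_eq]
      exact_mod_cast Finset.card_le_card (Finset.image_subset_image (Finset.filter_subset _ _))
    have hB2 : (G.card : ℝ) * pc S J' ≤ pc F J' * (β * S.card) := by
      have hB' : (G.card : ℝ) ≤ pc F J' * (β * S.card / pc S J') := by
        refine hB.trans ?_
        gcongr
      rw [mul_div_assoc', le_div_iff₀ hpJ'] at hB'
      exact hB'
    have hG3 : (F.card : ℝ) ≤ 2 * G.card := by exact_mod_cast hG2
    have hFl : (S.card : ℝ) ≤ M * pc S J * F.card := hlow J x hxS
    have hfin : (pc S J' : ℝ) * S.card ≤ (2 * M * β * pc S J * pc F J') * S.card := by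
      calc (pc S J' : ℝ) * S.card ≤ pc S J' * (M * pc S J * F.card) := by gcongr
        _ ≤ pc S J' * (M * pc S J * (2 * G.card)) := by gcongr
        _ = 2 * M * pc S J * (G.card * pc S J') := by ring
        _ ≤ 2 * M * pc S J * (pc F J' * (β * S.card)) := by gcongr
        _ = (2 * M * β * pc S J * pc F J') * S.card := by ring
    exact le_of_mul_le_mul_right hfin hSR

end Pool.Agent.W2helper66.CU
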